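import Pool.Agent.V5helper14.Hel.Ex

/-!
# Linear algebra for the last step
-/

namespace Pool.Agent.V5helper14.Hel

open Matrix

/-- An affine self map multiplies all orientation determinants by one constant. -/
theorem orient_affine {k : ℕ} (ψ : (Fin k → ℝ) →ᵃ[ℝ] (Fin k → ℝ)) :
    ∃ D : ℝ, ∀ (ι : Type) (q : ι → Fin k → ℝ) (f : Fin (k + 1) → ι),
      orient (fun i => ψ (q i)) f = D * orient q f := by
  let W : Matrix (Fin (k + 1)) (Fin (k + 1)) ℝ := Matrix.of
    (Fin.cons (Fin.cons 1 (ψ 0) : Fin (k + 1) → ℝ)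
      (fun l => (Fin.cons 0 (ψ.linear (Pi.single l 1)) : Fin (k + 1) → ℝ)))
  refine ⟨W.det, fun ι q f => ?_⟩
  unfold orient
  rw [mul_comm, ← Matrix.det_mul]
  congr 1
  ext i j
  rw [Matrix.mul_apply, Fin.sum_univ_succ]
  have hW0 : ∀ j, W 0 j = (Fin.cons 1 (ψ 0) : Fin (k + 1) → ℝ) j := fun j => rfl
  have hWs : ∀ l j, W (Fin.succ l) j = (Fin.cons 0 (ψ.linear (Pi.single l 1)) : Fin (k + 1) → ℝ) j :=
    fun l j => rfl
  simp only [hW0, hWs, Matrix.of_apply, Fin.cons_zero, Fin.cons_succ, one_mul]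
  refine Fin.cases ?_ (fun j => ?_) j
  · simp
  · simp only [Fin.cons_succ]
    have h1 : ψ (q (f i)) = ψ.linear (q (f i)) + ψ 0 := by
      rw [AffineMap.decomp ψ]
      simp
    have h2 := congrFun (LinearMap.pi_apply_eq_sum_univ ψ.linear (q (f i))) j
    rw [h1, Pi.add_apply, h2, Finset.sum_apply]
    rw [add_comm]
    congr 1
    apply Finset.sum_congr rfl
    intro l _
    have hs : (fun j => if l = j then (1 : ℝ) else 0) = Pi.single l 1 := by
      ext j'
      simp [Pi.single_apply, eq_comm]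
    rw [Pi.smul_apply, smul_eq_mul, hs]

/-- The image of an affine map `ℝ^k → ℝ^(k+1)` lies in a hyperplane. -/
theorem exists_normal {k : ℕ} (φ : (Fin k → ℝ) →ᵃ[ℝ] (Fin (k + 1) → ℝ)) :
    ∃ N : Fin (k + 1) → ℝ, N ≠ 0 ∧ ∃ c : ℝ, ∀ v, N ⬝ᵥ φ v = c := by
  have hlt : LinearMap.range φ.linear < ⊤ := by
    rw [lt_top_iff_ne_top]
    intro h
    have h1 := LinearMap.finrank_range_le φ.linear
    rw [h, finrank_top, Module.finrank_fin_fun, Module.finrank_fin_fun] at h1
    omega
  obtain ⟨f, hf, hker⟩ := Submodule.exists_le_ker_of_lt_top _ hlt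
  have hfv : ∀ v, (fun i => f (Pi.single i 1)) ⬝ᵥ v = f v := by
    intro v
    rw [LinearMap.pi_apply_eq_sum_univ f v]
    unfold dotProduct
    apply Finset.sum_congr rfl
    intro i _
    rw [smul_eq_mul, mul_comm]
    congr 1
    show f (Pi.single i 1) = _
    congr 1
    ext j
    simp [Pi.single_apply, eq_comm]
  refine ⟨fun i => f (Pi.single i 1), ?_, f (φ 0), ?_⟩
  · intro h
    apply hf
    apply LinearMap.ext
    intro v
    rw [← hfv v, h, zero_dotProduct]
    rfl
  · intro v
    rw [hfv]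
    have h1 : φ v = φ.linear v + φ 0 := by
      rw [AffineMap.decomp φ]
      simp
    have h2 : f (φ.linear v) = 0 := hker ⟨v, rfl⟩
    rw [h1, map_add, h2, zero_add]

/-- The parametrisation of the moving hyperplane. -/
noncomputable def par (k : ℕ) (t : ℝ) : (Fin (k + 1) → ℝ) →ᵃ[ℝ] (Fin (k + 2) → ℝ) :=
  LinearMap.toAffineMap
    { toFun := fun u => (Fin.cons (t * u 0) u : Fin (k + 2) → ℝ)
      map_add' := by
        intro u v
        ext i
        refine Fin.cases ?_ (fun i => ?_) i
        · simp [mul_add]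
        · simp
      map_smul' := by
        intro c u
        ext i
        refine Fin.cases ?_ (fun i => ?_) i
        · simp; ring
        · simp }

theorem par_apply (k : ℕ) (t : ℝ) (u : Fin (k + 1) → ℝ) :
    par k t u = (Fin.cons (t * u 0) u : Fin (k + 2) → ℝ) := rfl

theorem par_injective (k : ℕ) (t : ℝ) : Function.Injective (par k t) := by
  intro u v h
  rw [par_apply, par_apply] at h
  have := congrArg Fin.tail h
  simpa using this

end Pool.Agent.V5helper14.Hel
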