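import Pool.Agent.V5helper14.Hel.Ord

/-!
# The example in dimension three: positions in the moving plane
-/

namespace Pool.Agent.V5helper14.Hel

open Matrix

/-- Indices: two anchors and `m` triples of segments. -/
inductive Idx (m : ℕ) : Type
  | q0 : Idx m
  | q1 : Idx m
  | S (j : Fin m) (c : Fin 3) : Idx m
  deriving DecidableEq

namespace Idx

variable {m : ℕ}

/-- An injective rank function. -/
def rank : Idx m → ℕ
  | q0 => 0
  | q1 => 1
  | S j c => 2 + 3 * j + c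

theorem rank_injective : Function.Injective (rank (m := m)) := by
  intro a b h
  rcases a with _ | _ | ⟨j, c⟩ <;> rcases b with _ | _ | ⟨j', c'⟩ <;> simp only [rank] at h
  · rfl
  · omega
  · omega
  · omega
  · rfl
  · omega
  · omega
  · omega
  · have h1 : (j : ℕ) = j' := by omega
    have h2 : (c : ℕ) = c' := by omega
    rw [Fin.ext h1, Fin.ext h2]

instance : LinearOrder (Idx m) := LinearOrder.lift' rank rank_injective

theorem lt_iff (a b : Idx m) : a < b ↔ rank a < rank b := Iff.rfl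

/-- An explicit equivalence showing finiteness. -/
def toOpt : Idx m → Option (Option (Fin m × Fin 3))
  | q0 => none
  | q1 => some none
  | S j c => some (some (j, c))

theorem toOpt_injective : Function.Injective (toOpt (m := m)) := by
  intro a b h
  rcases a with _ | _ | ⟨j, c⟩ <;> rcases b with _ | _ | ⟨j', c'⟩ <;> simp_all [toOpt]

noncomputable instance : Fintype (Idx m) := Fintype.ofInjective toOpt toOpt_injective

end Idx

/-- The private instant of the `j`-th triple. -/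
noncomputable def cen (m : ℕ) (j : Fin m) : ℝ := (2 * (j : ℕ) + 1) / (2 * m)

noncomputable def eta (m : ℕ) : ℝ := 1 / (1000 * ((m : ℝ) + 1) ^ 2)

noncomputable def kap (m : ℕ) : ℝ := 1 / (16 * (m : ℝ) ^ 2)

/-- horizontal perturbation -/
noncomputable def U (m : ℕ) (j : Fin m) (c : Fin 3) (t : ℝ) : ℝ :=
  ![0, eta m * ((t - cen m j) + kap m), 2 * eta m * (t - cen m j)] c

/-- vertical perturbation -/
noncomputable def V (m : ℕ) (j : Fin m) (c : Fin 3) (t : ℝ) : ℝ :=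
  ![0, (1 / 8) * (1 + (t - cen m j) / 4), 1 / 4] c

/-- The level of the location of the `j`-th triple. -/
noncomputable def lev {m : ℕ} (j : Fin m) : ℝ := ((j : ℕ) : ℝ) + 1

noncomputable def xi (m : ℕ) (j : Fin m) (c : Fin 3) (t : ℝ) : ℝ := lev j + U m j c t

noncomputable def sg (m : ℕ) (j : Fin m) (c : Fin 3) (t : ℝ) : ℝ := lev j ^ 2 + V m j c t

section bounds

variable {m : ℕ}

theorem m_pos (j : Fin m) : (1 : ℝ) ≤ m := by
  have : 0 < m := lt_of_le_of_lt (Nat.zero_le _) j.2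
  exact_mod_cast this

theorem cen_mem (j : Fin m) : 0 < cen m j ∧ cen m j < 1 := by
  have h := m_pos j
  unfold cen
  have h2 : ((j : ℕ) : ℝ) + 1 ≤ m := by exact_mod_cast j.2
  have h3 : (0 : ℝ) ≤ ((j : ℕ) : ℝ) := Nat.cast_nonneg _
  constructor
  · positivity
  · rw [div_lt_one (by positivity)]
    linarith

theorem lev_bounds (j : Fin m) : 1 ≤ lev j ∧ lev j ≤ m := by
  unfold lev
  have h2 : ((j : ℕ) : ℝ) + 1 ≤ m := by exact_mod_cast j.2
  have h3 : (0 : ℝ) ≤ ((j : ℕ) : ℝ) := Nat.cast_nonneg _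
  constructor <;> linarith

theorem lev_lt {i j : Fin m} (h : (i : ℕ) < j) : lev i + 1 ≤ lev j := by
  unfold lev
  have : ((i : ℕ) : ℝ) + 1 ≤ ((j : ℕ) : ℝ) := by exact_mod_cast h
  linarith

theorem kap_bounds (j : Fin m) : 0 < kap m ∧ kap m ≤ 1 / 16 := by
  have h := m_pos j
  unfold kap
  constructor
  · positivity
  · apply one_div_le_one_div_of_le (by norm_num)
    nlinarith

theorem eta_pos (m : ℕ) : 0 < eta m := by unfold eta; positivity

theorem eta_mul (m : ℕ) : eta m * ((m : ℝ) + 1) ^ 2 = 1 / 1000 := by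
  unfold eta
  field_simp

theorem eta_le (m : ℕ) : eta m ≤ 1 / 1000 := by
  have h := eta_mul m
  have h1 : (1 : ℝ) ≤ ((m : ℝ) + 1) ^ 2 := by
    have : (0 : ℝ) ≤ (m : ℝ) := Nat.cast_nonneg _
    nlinarith
  have h2 := eta_pos m
  nlinarith

theorem U_bound (j : Fin m) (c : Fin 3) {t : ℝ} (ht0 : 0 ≤ t) (ht2 : t ≤ 2) :
    |U m j c t| ≤ 4 * eta m := by
  obtain ⟨h1, h2⟩ := cen_mem j
  obtain ⟨h3, h4⟩ := kap_bounds j
  have h5 := eta_pos m
  unfold U
  fin_cases c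
  · simp [h5.le]
  · simp only [Matrix.cons_val_one, Matrix.cons_val_zero, Fin.mk_one]
    show |eta m * ((t - cen m j) + kap m)| ≤ _
    rw [abs_mul, abs_of_pos h5, mul_comm 4]
    apply mul_le_mul_of_nonneg_left _ h5.le
    rw [abs_le]; constructor <;> linarith
  · show |2 * eta m * (t - cen m j)| ≤ _
    rw [abs_mul, abs_mul, abs_of_pos h5, abs_two]
    have : |t - cen m j| ≤ 2 := by rw [abs_le]; constructor <;> linarith
    nlinarith [abs_nonneg (t - cen m j)]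

theorem V_bounds (j : Fin m) (c : Fin 3) {t : ℝ} (ht0 : 0 ≤ t) (ht2 : t ≤ 2) :
    0 ≤ V m j c t ∧ V m j c t ≤ 1 / 4 := by
  obtain ⟨h1, h2⟩ := cen_mem j
  unfold V
  fin_cases c
  · simp
  · show 0 ≤ (1 / 8) * (1 + (t - cen m j) / 4) ∧ (1 / 8) * (1 + (t - cen m j) / 4) ≤ 1 / 4
    constructor <;> linarith
  · show (0 : ℝ) ≤ 1 / 4 ∧ (1 / 4 : ℝ) ≤ 1 / 4
    constructor <;> norm_num

theorem V_gap (j : Fin m) {c c' : Fin 3} (hc : (c : ℕ) < c') {t : ℝ} (ht0 : 0 ≤ t) (ht2 : t ≤ 2) :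
    1 / 16 ≤ V m j c' t - V m j c t := by
  obtain ⟨h1, h2⟩ := cen_mem j
  unfold V
  fin_cases c <;> fin_cases c' <;> simp at hc ⊢ <;> linarith

theorem xi_pos (j : Fin m) (c : Fin 3) {t : ℝ} (ht0 : 0 ≤ t) (ht2 : t ≤ 2) :
    0 < xi m j c t := by
  have h1 := U_bound j c ht0 ht2
  have h2 := (lev_bounds j).1
  have h3 := eta_le m
  unfold xi
  rw [abs_le] at h1
  linarith [h1.1]

/-- numerator of the orientation against the first anchor -/
theorem sg_lt {j j' : Fin m} {c c' : Fin 3}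
    (h : (j : ℕ) < j' ∨ (j = j' ∧ (c : ℕ) < c')) {t : ℝ} (ht0 : 0 ≤ t) (ht2 : t ≤ 2) :
    0 < sg m j' c' t - sg m j c t := by
  unfold sg
  rcases h with h | ⟨rfl, h⟩
  · have h1 := V_bounds j c ht0 ht2
    have h2 := V_bounds j' c' ht0 ht2
    have h3 := lev_lt h
    have h4 := (lev_bounds j).1
    nlinarith
  · have := V_gap j h ht0 ht2
    linarith

theorem sgxi_lt {j j' : Fin m} {c c' : Fin 3}
    (h : (j : ℕ) < j' ∨ (j = j' ∧ (c : ℕ) < c')) {t : ℝ} (ht0 : 0 ≤ t) (ht2 : t ≤ 2) :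
    0 < (sg m j' c' t - xi m j' c' t) - (sg m j c t - xi m j c t) := by
  unfold sg xi
  have hu := U_bound j c ht0 ht2
  have hu' := U_bound j' c' ht0 ht2
  have h5 := eta_le m
  rw [abs_le] at hu hu'
  rcases h with h | ⟨rfl, h⟩
  · have h1 := V_bounds j c ht0 ht2
    have h2 := V_bounds j' c' ht0 ht2
    have h3 := lev_lt h
    have h4 := (lev_bounds j).1
    nlinarith
  · have := V_gap j h ht0 ht2
    linarith [hu.1, hu.2, hu'.1, hu'.2]

/-- the orientation numerator of three segments -/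
noncomputable def E (m : ℕ) (j₁ : Fin m) (c₁ : Fin 3) (j₂ : Fin m) (c₂ : Fin 3) (j₃ : Fin m)
    (c₃ : Fin 3) (t : ℝ) : ℝ :=
  (xi m j₂ c₂ t - xi m j₁ c₁ t) * (sg m j₃ c₃ t - sg m j₁ c₁ t) -
    (xi m j₃ c₃ t - xi m j₁ c₁ t) * (sg m j₂ c₂ t - sg m j₁ c₁ t)

theorem eta_lev (i j : Fin m) : eta m * (lev j ^ 2 - lev i ^ 2 + 1) ≤ 1 / 1000 := by
  have h1 := lev_bounds i
  have h2 := lev_bounds j
  have h3 := eta_mul m
  have h4 := eta_pos m
  have h5 : lev j ^ 2 - lev i ^ 2 + 1 ≤ ((m : ℝ) + 1) ^ 2 := by nlinarith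
  nlinarith

theorem E_distinct {j₁ j₂ j₃ : Fin m} {c₁ c₂ c₃ : Fin 3} (h12 : (j₁ : ℕ) < j₂)
    (h23 : (j₂ : ℕ) < j₃) {t : ℝ} (ht0 : 0 ≤ t) (ht2 : t ≤ 2) :
    0 < E m j₁ c₁ j₂ c₂ j₃ c₃ t := by
  have u1 := abs_le.1 (U_bound j₁ c₁ ht0 ht2)
  have u2 := abs_le.1 (U_bound j₂ c₂ ht0 ht2)
  have u3 := abs_le.1 (U_bound j₃ c₃ ht0 ht2)
  have v1 := V_bounds j₁ c₁ ht0 ht2
  have v2 := V_bounds j₂ c₂ ht0 ht2
  have v3 := V_bounds j₃ c₃ ht0 ht2
  have l12 := lev_lt h12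
  have l23 := lev_lt h23
  have l1 := (lev_bounds j₁).1
  have e13 := eta_lev j₁ j₃
  have e12 := eta_lev j₁ j₂
  have he := eta_pos m
  have he' := eta_le m
  unfold E xi sg
  generalize lev j₁ = A at *
  generalize lev j₂ = B at *
  generalize lev j₃ = C at *
  generalize U m j₁ c₁ t = a at *
  generalize U m j₂ c₂ t = b at *
  generalize U m j₃ c₃ t = c at *
  generalize V m j₁ c₁ t = p at *
  generalize V m j₂ c₂ t = q at *
  generalize V m j₃ c₃ t = r at *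
  generalize eta m = e at *
  obtain ⟨a1, a2⟩ := u1
  obtain ⟨b1, b2⟩ := u2
  obtain ⟨c1, c2⟩ := u3
  obtain ⟨p1, p2⟩ := v1
  obtain ⟨q1, q2⟩ := v2
  obtain ⟨r1, r2⟩ := v3
  -- decomposition
  have key : (B + b - (A + a)) * (C ^ 2 + r - (A ^ 2 + p)) - (C + c - (A + a)) * (B ^ 2 + q - (A ^ 2 + p))
      = (B - A) * (C - A) * (C - B) + (B - A) * (r - p) - (C - A) * (q - p)
        + (b - a) * (C ^ 2 - A ^ 2 + (r - p)) - (c - a) * (B ^ 2 - A ^ 2 + (q - p)) := by ring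
  rw [key]
  have k0 : 1 ≤ (B - A) * (C - B) := by nlinarith
  have k1 : (B - A) * (C - A) * (C - B) ≥ C - A := by
    have w : (C - A) * 1 ≤ (C - A) * ((B - A) * (C - B)) :=
      mul_le_mul_of_nonneg_left k0 (by linarith)
    calc (B - A) * (C - A) * (C - B) = (C - A) * ((B - A) * (C - B)) := by ring
      _ ≥ (C - A) * 1 := w
      _ = C - A := mul_one _
  have k2 : (B - A) * (r - p) ≥ - (B - A) * (1 / 4) := by nlinarith
  have k3 : (C - A) * (q - p) ≤ (C - A) * (1 / 4) := by nlinarith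
  have k4 : (b - a) * (C ^ 2 - A ^ 2 + (r - p)) ≥ - (8 * e) * (C ^ 2 - A ^ 2 + 1) := by
    have w1 : 0 ≤ C ^ 2 - A ^ 2 + (r - p) := by nlinarith
    have w2 : - (8 * e) * (C ^ 2 - A ^ 2 + (r - p)) ≤ (b - a) * (C ^ 2 - A ^ 2 + (r - p)) :=
      mul_le_mul_of_nonneg_right (by linarith) w1
    nlinarith
  have k5 : (c - a) * (B ^ 2 - A ^ 2 + (q - p)) ≤ (8 * e) * (B ^ 2 - A ^ 2 + 1) := by
    have w1 : 0 ≤ B ^ 2 - A ^ 2 + (q - p) := by nlinarith
    have w2 : (c - a) * (B ^ 2 - A ^ 2 + (q - p)) ≤ (8 * e) * (B ^ 2 - A ^ 2 + (q - p)) :=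
      mul_le_mul_of_nonneg_right (by linarith) w1
    nlinarith
  linarith

theorem E_left {j₁ j₃ : Fin m} {c₁ c₂ c₃ : Fin 3} (hc : (c₁ : ℕ) < c₂)
    (h13 : (j₁ : ℕ) < j₃) {t : ℝ} (ht0 : 0 ≤ t) (ht2 : t ≤ 2) :
    E m j₁ c₁ j₁ c₂ j₃ c₃ t < 0 := by
  have u1 := abs_le.1 (U_bound j₁ c₁ ht0 ht2)
  have u2 := abs_le.1 (U_bound j₁ c₂ ht0 ht2)
  have u3 := abs_le.1 (U_bound j₃ c₃ ht0 ht2)
  have v1 := V_bounds j₁ c₁ ht0 ht2
  have v3 := V_bounds j₃ c₃ ht0 ht2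
  have g := V_gap j₁ hc ht0 ht2
  have l13 := lev_lt h13
  have l1 := (lev_bounds j₁).1
  have e13 := eta_lev j₁ j₃
  have he := eta_pos m
  have he' := eta_le m
  unfold E xi sg
  generalize lev j₁ = A at *
  generalize lev j₃ = C at *
  generalize U m j₁ c₁ t = a at *
  generalize U m j₁ c₂ t = b at *
  generalize U m j₃ c₃ t = c at *
  generalize V m j₁ c₁ t = p at *
  generalize V m j₁ c₂ t = q at *
  generalize V m j₃ c₃ t = r at *
  generalize eta m = e at *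
  obtain ⟨a1, a2⟩ := u1
  obtain ⟨b1, b2⟩ := u2
  obtain ⟨c1, c2⟩ := u3
  obtain ⟨p1, p2⟩ := v1
  obtain ⟨r1, r2⟩ := v3
  have key : (A + b - (A + a)) * (C ^ 2 + r - (A ^ 2 + p)) - (C + c - (A + a)) * (A ^ 2 + q - (A ^ 2 + p))
      = (b - a) * (C ^ 2 - A ^ 2 + (r - p)) - (C - A + (c - a)) * (q - p) := by ring
  rw [key]
  have k4 : (b - a) * (C ^ 2 - A ^ 2 + (r - p)) ≤ (8 * e) * (C ^ 2 - A ^ 2 + 1) := by
    have w1 : 0 ≤ C ^ 2 - A ^ 2 + (r - p) := by nlinarith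
    have w2 : (b - a) * (C ^ 2 - A ^ 2 + (r - p)) ≤ (8 * e) * (C ^ 2 - A ^ 2 + (r - p)) :=
      mul_le_mul_of_nonneg_right (by linarith) w1
    nlinarith
  have k5 : (1 / 2) * (1 / 16) ≤ (C - A + (c - a)) * (q - p) := by
    apply mul_le_mul _ g (by norm_num)
    · linarith
    · linarith
  linarith

theorem E_right {j₁ j₃ : Fin m} {c₁ c₂ c₃ : Fin 3} (hc : (c₂ : ℕ) < c₃)
    (h13 : (j₁ : ℕ) < j₃) {t : ℝ} (ht0 : 0 ≤ t) (ht2 : t ≤ 2) :
    0 < E m j₁ c₁ j₃ c₂ j₃ c₃ t := by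
  have u1 := abs_le.1 (U_bound j₁ c₁ ht0 ht2)
  have u2 := abs_le.1 (U_bound j₃ c₂ ht0 ht2)
  have u3 := abs_le.1 (U_bound j₃ c₃ ht0 ht2)
  have v1 := V_bounds j₁ c₁ ht0 ht2
  have v2 := V_bounds j₃ c₂ ht0 ht2
  have g := V_gap j₃ hc ht0 ht2
  have l13 := lev_lt h13
  have l1 := (lev_bounds j₁).1
  have e13 := eta_lev j₁ j₃
  have he := eta_pos m
  have he' := eta_le m
  unfold E xi sg
  generalize lev j₁ = A at *
  generalize lev j₃ = C at *
  generalize U m j₁ c₁ t = a at *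
  generalize U m j₃ c₂ t = b at *
  generalize U m j₃ c₃ t = c at *
  generalize V m j₁ c₁ t = p at *
  generalize V m j₃ c₂ t = q at *
  generalize V m j₃ c₃ t = r at *
  generalize eta m = e at *
  obtain ⟨a1, a2⟩ := u1
  obtain ⟨b1, b2⟩ := u2
  obtain ⟨c1, c2⟩ := u3
  obtain ⟨p1, p2⟩ := v1
  obtain ⟨q1, q2⟩ := v2
  have key : (C + b - (A + a)) * (C ^ 2 + r - (A ^ 2 + p)) - (C + c - (A + a)) * (C ^ 2 + q - (A ^ 2 + p))
      = (C - A + (b - a)) * (r - q) - (c - b) * (C ^ 2 - A ^ 2 + (q - p)) := by ring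
  rw [key]
  have k4 : (c - b) * (C ^ 2 - A ^ 2 + (q - p)) ≤ (8 * e) * (C ^ 2 - A ^ 2 + 1) := by
    have w1 : 0 ≤ C ^ 2 - A ^ 2 + (q - p) := by nlinarith
    have w2 : (c - b) * (C ^ 2 - A ^ 2 + (q - p)) ≤ (8 * e) * (C ^ 2 - A ^ 2 + (q - p)) :=
      mul_le_mul_of_nonneg_right (by linarith) w1
    nlinarith
  have k5 : (1 / 2) * (1 / 16) ≤ (C - A + (b - a)) * (r - q) := by
    apply mul_le_mul _ g (by norm_num)
    · linarith
    · linarith
  linarith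

theorem E_special (j : Fin m) (t : ℝ) :
    E m j 0 j 1 j 2 t = (eta m / 4) * (kap m - (t - cen m j) ^ 2 / 4) := by
  have u0 : U m j 0 t = 0 := rfl
  have u1 : U m j 1 t = eta m * ((t - cen m j) + kap m) := rfl
  have u2 : U m j 2 t = 2 * eta m * (t - cen m j) := rfl
  have v0 : V m j 0 t = 0 := rfl
  have v1 : V m j 1 t = (1 / 8) * (1 + (t - cen m j) / 4) := rfl
  have v2 : V m j 2 t = 1 / 4 := rfl
  unfold E xi sg
  rw [u0, u1, u2, v0, v1, v2]
  ring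

end bounds

end Pool.Agent.V5helper14.Hel
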