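import Pool.Agent.V5helper14.Hel.Base

/-!
# The example in dimension three, and its lifts to all higher dimensions
-/

namespace Pool.Agent.V5helper14.Hel

open Matrix

/-- The point of the moving hyperplane `z = t x` over the position `pos i t`. -/
noncomputable def pt {k : ℕ} {ι : Type} (pos : ι → ℝ → Fin (k + 1) → ℝ) (i : ι) (t : ℝ) :
    Fin (k + 2) → ℝ :=
  Fin.cons (t * pos i t 0) (pos i t)

/-- The sets of the family: a segment or a single point. -/
noncomputable def sgm {k : ℕ} {ι : Type} (pos : ι → ℝ → Fin (k + 1) → ℝ) (i : ι) :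
    Set (Fin (k + 2) → ℝ) :=
  segment ℝ (pt pos i 0) (pt pos i 1)

/-- A family with all the properties needed. -/
structure Ex (k h : ℕ) where
  ι : Type
  fin : Fintype ι
  pos : ι → ℝ → Fin (k + 1) → ℝ
  ne : Nonempty ι
  inj : Function.Injective fun i => pos i 2
  seg : ∀ i, ∀ t, 0 ≤ t → t ≤ 1 → pt pos i t ∈ sgm pos i
  plane : ∀ (N : Fin (k + 2) → ℝ) (c : ℝ), N ≠ 0 → ∀ X : ι → Fin (k + 2) → ℝ,
    (∀ i, X i ∈ sgm pos i) → (∀ i, N ⬝ᵥ X i = c) → ∃ t, 0 ≤ t ∧ t ≤ 1 ∧ ∀ i, X i = pt pos i t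
  disj : ∀ i j, i ≠ j → Disjoint (sgm pos i) (sgm pos j)
  few : ∀ B : Finset ι, B.card ≤ h → ∃ t, 0 ≤ t ∧ t ≤ 1 ∧
    Agree 1 (fun i => pos i t) (fun i => pos i 2) (B : Set ι)
  all : ∀ t, 0 ≤ t → t ≤ 1 → ∀ ε, ¬ Agree ε (fun i => pos i t) (fun i => pos i 2) Set.univ

/-! ### The three-dimensional example -/

/-- Positions of the base family. -/
noncomputable def pos0 (m : ℕ) : Idx m → ℝ → Fin 2 → ℝ
  | .q0, _ => ![0, 0]
  | .q1, _ => ![0, 1]
  | .S j c, t => ![1 / xi m j c t, sg m j c t / xi m j c t]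

theorem orient_two {ι : Type*} (q : ι → Fin 2 → ℝ) (f : Fin 3 → ι) :
    orient q f = (q (f 1) 0 * q (f 2) 1 - q (f 1) 1 * q (f 2) 0)
      - (q (f 0) 0 * q (f 2) 1 - q (f 0) 1 * q (f 2) 0)
      + (q (f 0) 0 * q (f 1) 1 - q (f 0) 1 * q (f 1) 0) := by
  unfold orient
  rw [Matrix.det_fin_three]
  simp only [Matrix.of_apply]
  have h1 : ∀ i, (Fin.cons 1 (q (f i)) : Fin 3 → ℝ) 0 = 1 := fun i => rfl
  have h2 : ∀ i, (Fin.cons 1 (q (f i)) : Fin 3 → ℝ) 1 = q (f i) 0 := fun i => rfl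
  have h3 : ∀ i, (Fin.cons 1 (q (f i)) : Fin 3 → ℝ) 2 = q (f i) 1 := fun i => rfl
  simp only [h1, h2, h3]
  ring

section base

variable {m : ℕ}

theorem sign_const (B : Set (Idx m)) (f : Fin 3 → Idx m) (hf : StrictMono f)
    (hB : ∀ i, f i ∈ B) : ∃ s : SignType, ∀ t, 0 ≤ t → t ≤ 2 →
      (∀ j, Idx.S j 0 ∈ B → kap m < (t - cen m j) ^ 2 / 4) →
      SignType.sign (orient (fun i => pos0 m i t) f) = s := by
  have h01 : Idx.rank (f 0) < Idx.rank (f 1) := hf (by decide)
  have h12 : Idx.rank (f 1) < Idx.rank (f 2) := hf (by decide)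
  have hB0 := hB 0
  rcases h0 : f 0 with _ | _ | ⟨j₀, c₀⟩
  · -- q0
    rcases h1 : f 1 with _ | _ | ⟨j₁, c₁⟩
    · rw [h0, h1] at h01; simp [Idx.rank] at h01
    · rcases h2 : f 2 with _ | _ | ⟨j₂, c₂⟩
      · rw [h1, h2] at h12; simp [Idx.rank] at h12
      · rw [h1, h2] at h12; simp [Idx.rank] at h12
      · refine ⟨-1, fun t ht0 ht2 _ => ?_⟩
        have hx := xi_pos j₂ c₂ ht0 ht2
        rw [orient_two, h0, h1, h2]
        rw [sign_eq_neg_one_iff]
        simp only [pos0, Matrix.cons_val_zero, Matrix.cons_val_one]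
        have : 0 < 1 / xi m j₂ c₂ t := by positivity
        linarith
    · rcases h2 : f 2 with _ | _ | ⟨j₂, c₂⟩
      · rw [h1, h2] at h12; simp [Idx.rank] at h12
      · rw [h1, h2] at h12; simp [Idx.rank] at h12
      · refine ⟨1, fun t ht0 ht2 _ => ?_⟩
        have hx1 := xi_pos j₁ c₁ ht0 ht2
        have hx2 := xi_pos j₂ c₂ ht0 ht2
        rw [orient_two, h0, h1, h2]
        rw [sign_eq_one_iff]
        simp only [pos0, Matrix.cons_val_zero, Matrix.cons_val_one]
        have hlt : (j₁ : ℕ) < j₂ ∨ (j₁ = j₂ ∧ (c₁ : ℕ) < c₂) := by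
          rw [h1, h2] at h12
          simp only [Idx.rank] at h12
          by_cases hj : (j₁ : ℕ) = j₂
          · right; exact ⟨Fin.ext hj, by omega⟩
          · left; omega
        have hs := sg_lt hlt ht0 ht2
        have : (1 / xi m j₁ c₁ t * (sg m j₂ c₂ t / xi m j₂ c₂ t)
            - sg m j₁ c₁ t / xi m j₁ c₁ t * (1 / xi m j₂ c₂ t))
            - (0 * (sg m j₂ c₂ t / xi m j₂ c₂ t) - 0 * (1 / xi m j₂ c₂ t))
            + (0 * (sg m j₁ c₁ t / xi m j₁ c₁ t) - 0 * (1 / xi m j₁ c₁ t))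
            = (sg m j₂ c₂ t - sg m j₁ c₁ t) / (xi m j₁ c₁ t * xi m j₂ c₂ t) := by
          field_simp
          ring
        rw [this]
        positivity
  · -- q1
    rcases h1 : f 1 with _ | _ | ⟨j₁, c₁⟩
    · rw [h0, h1] at h01; simp [Idx.rank] at h01
    · rw [h0, h1] at h01; simp [Idx.rank] at h01
    · rcases h2 : f 2 with _ | _ | ⟨j₂, c₂⟩
      · rw [h1, h2] at h12; simp [Idx.rank] at h12
      · rw [h1, h2] at h12; simp [Idx.rank] at h12
      · refine ⟨1, fun t ht0 ht2 _ => ?_⟩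
        have hx1 := xi_pos j₁ c₁ ht0 ht2
        have hx2 := xi_pos j₂ c₂ ht0 ht2
        rw [orient_two, h0, h1, h2]
        rw [sign_eq_one_iff]
        simp only [pos0, Matrix.cons_val_zero, Matrix.cons_val_one]
        have hlt : (j₁ : ℕ) < j₂ ∨ (j₁ = j₂ ∧ (c₁ : ℕ) < c₂) := by
          rw [h1, h2] at h12
          simp only [Idx.rank] at h12
          by_cases hj : (j₁ : ℕ) = j₂
          · right; exact ⟨Fin.ext hj, by omega⟩
          · left; omega
        have hs := sgxi_lt hlt ht0 ht2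
        have : (1 / xi m j₁ c₁ t * (sg m j₂ c₂ t / xi m j₂ c₂ t)
            - sg m j₁ c₁ t / xi m j₁ c₁ t * (1 / xi m j₂ c₂ t))
            - (0 * (sg m j₂ c₂ t / xi m j₂ c₂ t) - 1 * (1 / xi m j₂ c₂ t))
            + (0 * (sg m j₁ c₁ t / xi m j₁ c₁ t) - 1 * (1 / xi m j₁ c₁ t))
            = ((sg m j₂ c₂ t - xi m j₂ c₂ t) - (sg m j₁ c₁ t - xi m j₁ c₁ t)) /
              (xi m j₁ c₁ t * xi m j₂ c₂ t) := by
          field_simp
          ring
        rw [this]
        positivity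
  · -- all three are segments
    rcases h1 : f 1 with _ | _ | ⟨j₁, c₁⟩
    · rw [h0, h1] at h01; simp [Idx.rank] at h01
    · rw [h0, h1] at h01; simp [Idx.rank] at h01
    · rcases h2 : f 2 with _ | _ | ⟨j₂, c₂⟩
      · rw [h1, h2] at h12; simp [Idx.rank] at h12
      · rw [h1, h2] at h12; simp [Idx.rank] at h12
      · have hkey : ∀ t, 0 ≤ t → t ≤ 2 → orient (fun i => pos0 m i t) f
            = - (E m j₀ c₀ j₁ c₁ j₂ c₂ t) / (xi m j₀ c₀ t * xi m j₁ c₁ t * xi m j₂ c₂ t) := by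
          intro t ht0 ht2
          have hx0 := xi_pos j₀ c₀ ht0 ht2
          have hx1 := xi_pos j₁ c₁ ht0 ht2
          have hx2 := xi_pos j₂ c₂ ht0 ht2
          rw [orient_two, h0, h1, h2]
          simp only [pos0, Matrix.cons_val_zero, Matrix.cons_val_one, E]
          field_simp
          ring
        have hden : ∀ t, 0 ≤ t → t ≤ 2 →
            0 < xi m j₀ c₀ t * xi m j₁ c₁ t * xi m j₂ c₂ t := by
          intro t ht0 ht2
          have hx0 := xi_pos j₀ c₀ ht0 ht2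
          have hx1 := xi_pos j₁ c₁ ht0 ht2
          have hx2 := xi_pos j₂ c₂ ht0 ht2
          positivity
        have hneg : ∀ t, 0 ≤ t → t ≤ 2 → 0 < E m j₀ c₀ j₁ c₁ j₂ c₂ t →
            SignType.sign (orient (fun i => pos0 m i t) f) = -1 := by
          intro t ht0 ht2 hE
          rw [hkey t ht0 ht2, sign_eq_neg_one_iff]
          exact div_neg_of_neg_of_pos (by linarith) (hden t ht0 ht2)
        have hpos : ∀ t, 0 ≤ t → t ≤ 2 → E m j₀ c₀ j₁ c₁ j₂ c₂ t < 0 →
            SignType.sign (orient (fun i => pos0 m i t) f) = 1 := by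
          intro t ht0 ht2 hE
          rw [hkey t ht0 ht2, sign_eq_one_iff]
          exact div_pos (by linarith) (hden t ht0 ht2)
        rw [h0, h1] at h01
        rw [h1, h2] at h12
        simp only [Idx.rank] at h01 h12
        by_cases hj01 : (j₀ : ℕ) = j₁
        · obtain rfl : j₀ = j₁ := Fin.ext hj01
          by_cases hj12 : (j₀ : ℕ) = j₂
          · obtain rfl : j₀ = j₂ := Fin.ext hj12
            have hc0 : c₀ = 0 := Fin.ext (by show (c₀ : ℕ) = 0; omega)
            have hc1 : c₁ = 1 := Fin.ext (by show (c₁ : ℕ) = 1; omega)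
            have hc2 : c₂ = 2 := Fin.ext (by show (c₂ : ℕ) = 2; omega)
            subst hc0 hc1 hc2
            refine ⟨1, fun t ht0 ht2 hC => hpos t ht0 ht2 ?_⟩
            rw [E_special]
            have := hC j₀ (h0 ▸ hB0)
            have he := eta_pos m
            apply mul_neg_of_pos_of_neg <;> linarith
          · refine ⟨1, fun t ht0 ht2 hC => hpos t ht0 ht2 ?_⟩
            exact E_left (by omega) (by omega) ht0 ht2
        · by_cases hj12 : (j₁ : ℕ) = j₂
          · obtain rfl : j₁ = j₂ := Fin.ext hj12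
            refine ⟨-1, fun t ht0 ht2 hC => hneg t ht0 ht2 ?_⟩
            exact E_right (by omega) (by omega) ht0 ht2
          · refine ⟨-1, fun t ht0 ht2 hC => hneg t ht0 ht2 ?_⟩
            exact E_distinct (by omega) (by omega) ht0 ht2

theorem cond_two (j : Fin m) : kap m < (2 - cen m j) ^ 2 / 4 := by
  have h1 := kap_bounds j
  have h2 := cen_mem j
  nlinarith [h1.2]

theorem agree_base (B : Set (Idx m)) {t : ℝ} (ht0 : 0 ≤ t) (ht1 : t ≤ 1)
    (hC : ∀ j, Idx.S j 0 ∈ B → kap m < (t - cen m j) ^ 2 / 4) :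
    Agree 1 (fun i => pos0 m i t) (fun i => pos0 m i 2) B := by
  apply agree_of_strictMono
  intro f hf hfB
  obtain ⟨s, hs⟩ := sign_const B f hf hfB
  rw [hs t ht0 (by linarith) hC, hs 2 (by norm_num) le_rfl (fun j _ => cond_two j), one_mul]

theorem exists_close (hm : 0 < m) {t : ℝ} (ht0 : 0 ≤ t) (ht1 : t ≤ 1) :
    ∃ j : Fin m, (t - cen m j) ^ 2 / 4 ≤ kap m := by
  have hmR : (0 : ℝ) < m := by exact_mod_cast hm
  have key : ∃ j : Fin m, |2 * m * t - (2 * (j : ℕ) + 1)| ≤ 1 := by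
    by_cases h : ⌊(m : ℝ) * t⌋₊ < m
    · refine ⟨⟨_, h⟩, ?_⟩
      have h1 := Nat.floor_le (show (0 : ℝ) ≤ (m : ℝ) * t by positivity)
      have h2 := Nat.lt_floor_add_one ((m : ℝ) * t)
      rw [abs_le]
      constructor <;> simp only <;> linarith
    · push Not at h
      have h1 := Nat.floor_le (show (0 : ℝ) ≤ (m : ℝ) * t by positivity)
      have h2 : (m : ℝ) ≤ (⌊(m : ℝ) * t⌋₊ : ℝ) := by exact_mod_cast h
      have h3 : t = 1 := by nlinarith
      refine ⟨⟨m - 1, by omega⟩, ?_⟩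
      have h4 : ((m - 1 : ℕ) : ℝ) = (m : ℝ) - 1 := by
        rw [Nat.cast_sub hm]; simp
      simp only [h3, h4]
      rw [abs_le]
      constructor <;> linarith
  obtain ⟨j, hj⟩ := key
  refine ⟨j, ?_⟩
  have h1 : t - cen m j = (2 * m * t - (2 * (j : ℕ) + 1)) / (2 * m) := by
    unfold cen
    field_simp
  rw [h1, kap, div_pow, div_div, div_le_div_iff₀ (by positivity) (by positivity)]
  have h2 : (2 * m * t - (2 * (j : ℕ) + 1)) ^ 2 ≤ 1 := by
    rw [sq_le_one_iff_abs_le_one]; exact hj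
  have h3 : (0 : ℝ) < 16 * (m : ℝ) ^ 2 := by positivity
  nlinarith

theorem not_agree_base (hm : 0 < m) {t : ℝ} (ht0 : 0 ≤ t) (ht1 : t ≤ 1) (ε : SignType) :
    ¬ Agree ε (fun i => pos0 m i t) (fun i => pos0 m i 2) Set.univ := by
  intro h
  have hne : ε = 1 := by
    have h1 := h ![Idx.q0, Idx.q1, Idx.S ⟨0, hm⟩ 0] (fun _ => Set.mem_univ _)
    have h2 : ∀ s : ℝ, 0 ≤ s → s ≤ 2 → SignType.sign (orient (fun i => pos0 m i s)
        ![Idx.q0, Idx.q1, Idx.S ⟨0, hm⟩ 0]) = -1 := by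
      intro s hs0 hs2
      have hx := xi_pos (⟨0, hm⟩ : Fin m) 0 hs0 hs2
      rw [orient_two, sign_eq_neg_one_iff]
      simp only [Matrix.cons_val_zero, Matrix.cons_val_one, Matrix.cons_val, pos0]
      have : 0 < 1 / xi m ⟨0, hm⟩ 0 s := by positivity
      linarith
    rw [h2 t ht0 (by linarith), h2 2 (by norm_num) le_rfl] at h1
    revert h1
    cases ε <;> decide
  subst hne
  obtain ⟨j, hj⟩ := exists_close hm ht0 ht1
  have h1 := h ![Idx.S j 0, Idx.S j 1, Idx.S j 2] (fun _ => Set.mem_univ _)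
  have hkey : ∀ s, 0 ≤ s → s ≤ 2 → orient (fun i => pos0 m i s)
      ![Idx.S j 0, Idx.S j 1, Idx.S j 2]
      = - (E m j 0 j 1 j 2 s) / (xi m j 0 s * xi m j 1 s * xi m j 2 s) := by
    intro s hs0 hs2
    have hx0 := xi_pos j 0 hs0 hs2
    have hx1 := xi_pos j 1 hs0 hs2
    have hx2 := xi_pos j 2 hs0 hs2
    rw [orient_two]
    simp only [pos0, Matrix.cons_val_zero, Matrix.cons_val_one, Matrix.cons_val, E]
    field_simp
    ring
  have hden : ∀ s, 0 ≤ s → s ≤ 2 → 0 < xi m j 0 s * xi m j 1 s * xi m j 2 s := by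
    intro s hs0 hs2
    have hx0 := xi_pos j 0 hs0 hs2
    have hx1 := xi_pos j 1 hs0 hs2
    have hx2 := xi_pos j 2 hs0 hs2
    positivity
  have he := eta_pos m
  have h2 : SignType.sign (orient (fun i => pos0 m i 2) ![Idx.S j 0, Idx.S j 1, Idx.S j 2]) = 1 := by
    rw [hkey 2 (by norm_num) le_rfl, sign_eq_one_iff]
    apply div_pos _ (hden 2 (by norm_num) le_rfl)
    rw [E_special]
    have := cond_two j
    have : (eta m / 4) * (kap m - (2 - cen m j) ^ 2 / 4) < 0 := by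
      apply mul_neg_of_pos_of_neg <;> linarith
    linarith
  rw [h2, one_mul, sign_eq_one_iff, hkey t ht0 (by linarith)] at h1
  have h3 : - (E m j 0 j 1 j 2 t) / (xi m j 0 t * xi m j 1 t * xi m j 2 t) ≤ 0 := by
    apply div_nonpos_of_nonpos_of_nonneg _ (hden t ht0 (by linarith)).le
    rw [E_special]
    have : 0 ≤ (eta m / 4) * (kap m - (t - cen m j) ^ 2 / 4) := by
      apply mul_nonneg <;> linarith
    linarith
  linarith

theorem few_base (h : ℕ) (B : Finset (Idx (h + 1))) (hB : B.card ≤ h) :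
    ∃ t, 0 ≤ t ∧ t ≤ 1 ∧
      Agree 1 (fun i => pos0 (h + 1) i t) (fun i => pos0 (h + 1) i 2) (B : Set (Idx (h + 1))) := by
  have h1 : ∃ j : Fin (h + 1), Idx.S j 0 ∉ B := by
    by_contra hcon
    push Not at hcon
    have h2 : (Finset.univ.map ⟨fun j : Fin (h + 1) => (Idx.S j 0 : Idx (h + 1)),
        fun a b hab => by simpa using hab⟩) ⊆ B := by
      intro x hx
      rw [Finset.mem_map] at hx
      obtain ⟨j, -, rfl⟩ := hx
      exact hcon j
    have h3 := Finset.card_le_card h2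
    rw [Finset.card_map, Finset.card_univ, Fintype.card_fin] at h3
    omega
  obtain ⟨j₀, hj₀⟩ := h1
  have hc := cen_mem j₀
  refine ⟨cen (h + 1) j₀, hc.1.le, hc.2.le, agree_base _ hc.1.le hc.2.le ?_⟩
  intro j hj
  have hne : j ≠ j₀ := by
    rintro rfl
    exact hj₀ hj
  have hm : (0 : ℝ) < ((h + 1 : ℕ) : ℝ) := by positivity
  have h4 : (1 : ℝ) ≤ (((j₀ : ℕ) : ℝ) - (j : ℕ)) ^ 2 := by
    have h5 : ((j₀ : ℕ) : ℤ) - (j : ℕ) ≠ 0 := by
      intro h6
      apply hne
      apply Fin.ext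
      omega
    have h6 : (1 : ℤ) ≤ (((j₀ : ℕ) : ℤ) - (j : ℕ)) ^ 2 := by
      have := sq_nonneg (((j₀ : ℕ) : ℤ) - (j : ℕ))
      have h7 : (((j₀ : ℕ) : ℤ) - (j : ℕ)) ^ 2 ≠ 0 := pow_ne_zero 2 h5
      omega
    exact_mod_cast h6
  have h5 : cen (h + 1) j₀ - cen (h + 1) j = (((j₀ : ℕ) : ℝ) - (j : ℕ)) / ((h + 1 : ℕ) : ℝ) := by
    unfold cen
    field_simp
    ring
  rw [h5, kap, div_pow, div_div, div_lt_div_iff₀ (by positivity) (by positivity)]
  have h6 : (0 : ℝ) < ((h + 1 : ℕ) : ℝ) ^ 2 := by positivity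
  nlinarith

theorem xi_affine (j : Fin m) (c : Fin 3) (t : ℝ) :
    xi m j c t = (1 - t) * xi m j c 0 + t * xi m j c 1 := by
  unfold xi U
  fin_cases c
  · show lev j + 0 = (1 - t) * (lev j + 0) + t * (lev j + 0)
    ring
  · show lev j + eta m * ((t - cen m j) + kap m) = (1 - t) * (lev j + eta m * ((0 - cen m j) + kap m))
      + t * (lev j + eta m * ((1 - cen m j) + kap m))
    ring
  · show lev j + 2 * eta m * (t - cen m j) = (1 - t) * (lev j + 2 * eta m * (0 - cen m j))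
      + t * (lev j + 2 * eta m * (1 - cen m j))
    ring

theorem sg_affine (j : Fin m) (c : Fin 3) (t : ℝ) :
    sg m j c t = (1 - t) * sg m j c 0 + t * sg m j c 1 := by
  unfold sg V
  fin_cases c
  · show lev j ^ 2 + 0 = (1 - t) * (lev j ^ 2 + 0) + t * (lev j ^ 2 + 0)
    ring
  · show lev j ^ 2 + (1 / 8) * (1 + (t - cen m j) / 4) =
      (1 - t) * (lev j ^ 2 + (1 / 8) * (1 + (0 - cen m j) / 4))
      + t * (lev j ^ 2 + (1 / 8) * (1 + (1 - cen m j) / 4))
    ring
  · show lev j ^ 2 + 1 / 4 = (1 - t) * (lev j ^ 2 + 1 / 4) + t * (lev j ^ 2 + 1 / 4)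
    ring

theorem pt_q0 (t : ℝ) : pt (pos0 m) Idx.q0 t = ![0, 0, 0] := by
  ext i
  fin_cases i <;> simp [pt, pos0]

theorem pt_q1 (t : ℝ) : pt (pos0 m) Idx.q1 t = ![0, 0, 1] := by
  ext i
  fin_cases i <;> simp [pt, pos0]

theorem pt_S (j : Fin m) (c : Fin 3) (t : ℝ) : pt (pos0 m) (Idx.S j c) t =
    ![t * (1 / xi m j c t), 1 / xi m j c t, sg m j c t / xi m j c t] := by
  ext i
  fin_cases i <;> rfl

theorem seg_base (i : Idx m) {t : ℝ} (ht0 : 0 ≤ t) (ht1 : t ≤ 1) :
    pt (pos0 m) i t ∈ sgm (pos0 m) i := by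
  unfold sgm
  rcases i with _ | _ | ⟨j, c⟩
  · rw [pt_q0, pt_q0, pt_q0]; exact left_mem_segment ℝ _ _
  · rw [pt_q1, pt_q1, pt_q1]; exact left_mem_segment ℝ _ _
  · rw [pt_S, pt_S, pt_S]
    have hx := xi_pos j c ht0 (by linarith : t ≤ 2)
    have hx0 := xi_pos j c le_rfl (by norm_num : (0 : ℝ) ≤ 2)
    have hx1 := xi_pos j c (by norm_num : (0 : ℝ) ≤ 1) (by norm_num : (1 : ℝ) ≤ 2)
    have ha := xi_affine j c t
    have hb := sg_affine j c t
    refine ⟨(1 - t) * xi m j c 0 / xi m j c t, t * xi m j c 1 / xi m j c t, ?_, ?_, ?_, ?_⟩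
    · apply div_nonneg _ hx.le
      apply mul_nonneg _ hx0.le
      linarith
    · apply div_nonneg _ hx.le
      exact mul_nonneg ht0 hx1.le
    · rw [← add_div, ← ha, div_self hx.ne']
    · ext i
      fin_cases i
      · show (1 - t) * xi m j c 0 / xi m j c t * (0 * (1 / xi m j c 0)) +
          t * xi m j c 1 / xi m j c t * (1 * (1 / xi m j c 1)) = t * (1 / xi m j c t)
        field_simp
        ring
      · show (1 - t) * xi m j c 0 / xi m j c t * (1 / xi m j c 0) +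
          t * xi m j c 1 / xi m j c t * (1 / xi m j c 1) = 1 / xi m j c t
        field_simp
        ring
      · show (1 - t) * xi m j c 0 / xi m j c t * (sg m j c 0 / xi m j c 0) +
          t * xi m j c 1 / xi m j c t * (sg m j c 1 / xi m j c 1) = sg m j c t / xi m j c t
        rw [hb]
        field_simp

/-- The linear description of the segments of the base family. -/
theorem mem_sgm_S {j : Fin m} {c : Fin 3} {X : Fin 3 → ℝ} (hX : X ∈ sgm (pos0 m) (Idx.S j c)) :
    0 < X 1 ∧ 0 ≤ X 0 ∧ X 0 ≤ X 1 ∧ xi m j c 0 * (X 1 - X 0) + xi m j c 1 * X 0 = 1 ∧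
      X 2 = sg m j c 0 * (X 1 - X 0) + sg m j c 1 * X 0 := by
  have hx0 := xi_pos j c le_rfl (by norm_num : (0 : ℝ) ≤ 2)
  have hx1 := xi_pos j c (by norm_num : (0 : ℝ) ≤ 1) (by norm_num : (1 : ℝ) ≤ 2)
  unfold sgm at hX
  rw [pt_S, pt_S] at hX
  obtain ⟨a, b, ha, hb, hab, rfl⟩ := hX
  have e0 : (a • ![(0 : ℝ) * (1 / xi m j c 0), 1 / xi m j c 0, sg m j c 0 / xi m j c 0] +
      b • ![1 * (1 / xi m j c 1), 1 / xi m j c 1, sg m j c 1 / xi m j c 1]) 0
      = b * (1 / xi m j c 1) := by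
    show a * (0 * (1 / xi m j c 0)) + b * (1 * (1 / xi m j c 1)) = _
    ring
  have e1 : (a • ![(0 : ℝ) * (1 / xi m j c 0), 1 / xi m j c 0, sg m j c 0 / xi m j c 0] +
      b • ![1 * (1 / xi m j c 1), 1 / xi m j c 1, sg m j c 1 / xi m j c 1]) 1
      = a * (1 / xi m j c 0) + b * (1 / xi m j c 1) := rfl
  have e2 : (a • ![(0 : ℝ) * (1 / xi m j c 0), 1 / xi m j c 0, sg m j c 0 / xi m j c 0] +
      b • ![1 * (1 / xi m j c 1), 1 / xi m j c 1, sg m j c 1 / xi m j c 1]) 2
      = a * (sg m j c 0 / xi m j c 0) + b * (sg m j c 1 / xi m j c 1) := rfl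
  rw [e0, e1, e2]
  have p0 : 0 < 1 / xi m j c 0 := by positivity
  have p1 : 0 < 1 / xi m j c 1 := by positivity
  refine ⟨?_, by positivity, ?_, ?_, ?_⟩
  · rcases ha.lt_or_eq with h | h
    · have := mul_pos h p0
      have := mul_nonneg hb p1.le
      linarith
    · have hb1 : b = 1 := by linarith
      rw [← h, hb1]; linarith
  · have := mul_nonneg ha p0.le
    linarith
  · have : xi m j c 0 * (a * (1 / xi m j c 0) + b * (1 / xi m j c 1) - b * (1 / xi m j c 1)) +
        xi m j c 1 * (b * (1 / xi m j c 1)) = a + b := by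
      field_simp
      ring
    rw [this, hab]
  · field_simp
    ring

theorem eq_pt_of_mem {j : Fin m} {c : Fin 3} {X : Fin 3 → ℝ} (hX : X ∈ sgm (pos0 m) (Idx.S j c))
    {t : ℝ} (ht0 : 0 ≤ t) (ht1 : t ≤ 1) (h : X 0 = t * X 1) : X = pt (pos0 m) (Idx.S j c) t := by
  obtain ⟨_, _, _, h4, h5⟩ := mem_sgm_S hX
  have hx := xi_pos j c ht0 (by linarith : t ≤ 2)
  have ha := xi_affine j c t
  have hb := sg_affine j c t
  have h6 : xi m j c t * X 1 = 1 := by
    calc xi m j c t * X 1 = xi m j c 0 * (X 1 - t * X 1) + xi m j c 1 * (t * X 1) := by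
          rw [ha]; ring
      _ = 1 := by rw [← h]; exact h4
  have h7 : X 1 = 1 / xi m j c t := by
    field_simp; linarith
  rw [pt_S]
  ext i
  fin_cases i
  · show X 0 = t * (1 / xi m j c t)
    rw [h, h7]
  · show X 1 = 1 / xi m j c t
    exact h7
  · show X 2 = sg m j c t / xi m j c t
    rw [h5, h, hb, h7]
    field_simp

theorem plane_base (hm : 0 < m) (N : Fin 3 → ℝ) (c : ℝ) (hN : N ≠ 0) (X : Idx m → Fin 3 → ℝ)
    (hX : ∀ i, X i ∈ sgm (pos0 m) i) (hc : ∀ i, N ⬝ᵥ X i = c) :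
    ∃ t, 0 ≤ t ∧ t ≤ 1 ∧ ∀ i, X i = pt (pos0 m) i t := by
  have hq0 : X Idx.q0 = ![0, 0, 0] := by
    have := hX Idx.q0
    rw [sgm, pt_q0, pt_q0, segment_same] at this
    exact this
  have hq1 : X Idx.q1 = ![0, 0, 1] := by
    have := hX Idx.q1
    rw [sgm, pt_q1, pt_q1, segment_same] at this
    exact this
  have h0 : c = 0 := by
    have := hc Idx.q0
    rw [hq0] at this
    simp [dotProduct, Fin.sum_univ_three] at this
    exact this.symm
  have h2 : N 2 = 0 := by
    have := hc Idx.q1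
    rw [hq1, h0] at this
    simpa [dotProduct, Fin.sum_univ_three] using this
  have hS : ∀ j c, N 0 * X (Idx.S j c) 0 + N 1 * X (Idx.S j c) 1 = 0 := by
    intro j c
    have := hc (Idx.S j c)
    rw [h0] at this
    simpa [dotProduct, Fin.sum_univ_three, h2] using this
  have hN0 : N 0 ≠ 0 := by
    intro h
    have h3 := hS ⟨0, hm⟩ 0
    rw [h, zero_mul, zero_add] at h3
    have h4 := (mem_sgm_S (hX (Idx.S ⟨0, hm⟩ 0))).1
    have h5 : N 1 = 0 := by
      rcases mul_eq_zero.1 h3 with h5 | h5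
      · exact h5
      · exact absurd h5 h4.ne'
    apply hN
    ext i
    fin_cases i
    · exact h
    · exact h5
    · exact h2
  have hz : ∀ j c, X (Idx.S j c) 0 = (- N 1 / N 0) * X (Idx.S j c) 1 := by
    intro j c
    have := hS j c
    field_simp
    linarith
  have hmem := mem_sgm_S (hX (Idx.S ⟨0, hm⟩ 0))
  have hz0 := hz ⟨0, hm⟩ 0
  have ht0 : 0 ≤ - N 1 / N 0 := by
    by_contra hcon
    push Not at hcon
    have := mul_neg_of_neg_of_pos hcon hmem.1
    linarith [hmem.2.1]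
  have ht1 : - N 1 / N 0 ≤ 1 := by
    by_contra hcon
    push Not at hcon
    have := mul_lt_mul_of_pos_right hcon hmem.1
    linarith [hmem.2.2.1]
  refine ⟨- N 1 / N 0, ht0, ht1, ?_⟩
  intro i
  rcases i with _ | _ | ⟨j, c⟩
  · rw [hq0, pt_q0]
  · rw [hq1, pt_q1]
  · exact eq_pt_of_mem (hX _) ht0 ht1 (hz j c)

theorem Idx.S_cases {j j' : Fin m} {c c' : Fin 3} (h : Idx.S j c ≠ Idx.S j' c') :
    ((j : ℕ) < j' ∨ (j = j' ∧ (c : ℕ) < c')) ∨ ((j' : ℕ) < j ∨ (j' = j ∧ (c' : ℕ) < c)) := by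
  by_cases hj : (j : ℕ) = j'
  · have hj' : j = j' := Fin.ext hj
    have hc : (c : ℕ) ≠ c' := by
      intro hc
      exact h (by rw [hj', Fin.ext hc])
    subst hj'
    omega
  · omega

theorem pt_ne {j j' : Fin m} {c c' : Fin 3} (h : Idx.S j c ≠ Idx.S j' c') {t : ℝ} (ht0 : 0 ≤ t)
    (ht2 : t ≤ 2) (h1 : xi m j c t = xi m j' c' t) (h2 : sg m j c t = sg m j' c' t) : False := by
  rcases Idx.S_cases h with h3 | h3
  · have := sg_lt h3 ht0 ht2
    linarith
  · have := sg_lt h3 ht0 ht2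
    linarith

theorem inj_base : Function.Injective fun i => pos0 m i 2 := by
  intro a b hab
  have e0 := congrFun hab 0
  have e1 := congrFun hab 1
  simp only at e0 e1
  rcases a with _ | _ | ⟨j, c⟩ <;> rcases b with _ | _ | ⟨j', c'⟩
  · rfl
  · simp [pos0] at e1
  · have hx := xi_pos j' c' (by norm_num : (0 : ℝ) ≤ 2) le_rfl
    simp [pos0] at e0
    exact absurd e0 hx.ne
  · simp [pos0] at e1
  · rfl
  · have hx := xi_pos j' c' (by norm_num : (0 : ℝ) ≤ 2) le_rfl
    simp [pos0] at e0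
    exact absurd e0 hx.ne
  · have hx := xi_pos j c (by norm_num : (0 : ℝ) ≤ 2) le_rfl
    simp [pos0] at e0
    exact absurd e0 hx.ne'
  · have hx := xi_pos j c (by norm_num : (0 : ℝ) ≤ 2) le_rfl
    simp [pos0] at e0
    exact absurd e0 hx.ne'
  · by_contra hne
    have hx := xi_pos j c (by norm_num : (0 : ℝ) ≤ 2) le_rfl
    have hx' := xi_pos j' c' (by norm_num : (0 : ℝ) ≤ 2) le_rfl
    simp only [pos0, Matrix.cons_val_zero, Matrix.cons_val_one] at e0 e1
    have h1 : xi m j c 2 = xi m j' c' 2 := by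
      rw [one_div, one_div] at e0
      exact inv_injective e0
    rw [h1] at e1
    have h2 : sg m j c 2 = sg m j' c' 2 := by
      field_simp at e1
      exact e1
    exact pt_ne hne (by norm_num) le_rfl h1 h2

theorem disj_base (a b : Idx m) (hab : a ≠ b) : Disjoint (sgm (pos0 m) a) (sgm (pos0 m) b) := by
  rw [Set.disjoint_left]
  intro X hXa hXb
  rcases a with _ | _ | ⟨j, c⟩ <;> rcases b with _ | _ | ⟨j', c'⟩
  · exact hab rfl
  · rw [sgm, pt_q0, pt_q0, segment_same] at hXa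
    rw [sgm, pt_q1, pt_q1, segment_same] at hXb
    rw [Set.mem_singleton_iff] at hXa hXb
    rw [hXa] at hXb
    have := congrFun hXb 2
    simp at this
  · rw [sgm, pt_q0, pt_q0, segment_same, Set.mem_singleton_iff] at hXa
    have h1 := (mem_sgm_S hXb).1
    rw [hXa] at h1
    simp at h1
  · rw [sgm, pt_q1, pt_q1, segment_same, Set.mem_singleton_iff] at hXa
    rw [sgm, pt_q0, pt_q0, segment_same, Set.mem_singleton_iff] at hXb
    rw [hXa] at hXb
    have := congrFun hXb 2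
    simp at this
  · exact hab rfl
  · rw [sgm, pt_q1, pt_q1, segment_same, Set.mem_singleton_iff] at hXa
    have h1 := (mem_sgm_S hXb).1
    rw [hXa] at h1
    simp at h1
  · rw [sgm, pt_q0, pt_q0, segment_same, Set.mem_singleton_iff] at hXb
    have h1 := (mem_sgm_S hXa).1
    rw [hXb] at h1
    simp at h1
  · rw [sgm, pt_q1, pt_q1, segment_same, Set.mem_singleton_iff] at hXb
    have h1 := (mem_sgm_S hXa).1
    rw [hXb] at h1
    simp at h1
  · obtain ⟨h1, h2, h3, -, -⟩ := mem_sgm_S hXa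
    obtain ⟨t, ht⟩ : ∃ t, X 0 / X 1 = t := ⟨_, rfl⟩
    have ht0 : 0 ≤ t := by rw [← ht]; exact div_nonneg h2 h1.le
    have ht1 : t ≤ 1 := by rw [← ht, div_le_one h1]; exact h3
    have hz : X 0 = t * X 1 := by rw [← ht]; field_simp
    have ea := eq_pt_of_mem hXa ht0 ht1 hz
    have eb := eq_pt_of_mem hXb ht0 ht1 hz
    have hx := xi_pos j c ht0 (by linarith : t ≤ 2)
    have hx' := xi_pos j' c' ht0 (by linarith : t ≤ 2)
    have ec := ea.symm.trans eb
    rw [pt_S, pt_S] at ec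
    have e1 := congrFun ec 1
    have e2 := congrFun ec 2
    simp only [Matrix.cons_val_one, Matrix.cons_val] at e1 e2
    have h6 : xi m j c t = xi m j' c' t := by
      rw [one_div, one_div] at e1
      exact inv_injective e1
    have h7 : sg m j c t = sg m j' c' t := by
      rw [h6, div_left_inj' hx'.ne'] at e2
      exact e2
    exact pt_ne hab ht0 (by linarith) h6 h7

/-- The base example. -/
noncomputable def exBase (h : ℕ) : Ex 1 h where
  ι := Idx (h + 1)
  fin := inferInstance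
  pos := pos0 (h + 1)
  ne := ⟨Idx.q0⟩
  inj := inj_base
  seg i t ht0 ht1 := seg_base i ht0 ht1
  plane N c hN X hX hc := plane_base (Nat.succ_pos h) N c hN X hX hc
  disj := disj_base
  few B hB := few_base h B hB
  all t ht0 ht1 ε := not_agree_base (Nat.succ_pos h) ht0 ht1 ε

end base

/-! ### Lifting to higher dimensions -/

section lift

variable {k : ℕ} {ι : Type}

/-- The lifted positions. -/
noncomputable def lpos (pos : ι → ℝ → Fin (k + 1) → ℝ) (o : Option ι) (t : ℝ) : Fin (k + 2) → ℝ :=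
  lift (fun i => pos i t) o

theorem pt_lpos_some (pos : ι → ℝ → Fin (k + 1) → ℝ) (i : ι) (t : ℝ) :
    pt (lpos pos) (some i) t = Fin.snoc (pt pos i t) (0 : ℝ) := by
  unfold pt lpos lift
  have h0 : (Fin.snoc (pos i t) (0 : ℝ) : Fin (k + 2) → ℝ) 0 = pos i t 0 := by
    have : (0 : Fin (k + 2)) = Fin.castSucc 0 := rfl
    rw [this, Fin.snoc_castSucc]
  simp only
  rw [h0, Fin.cons_snoc_eq_snoc_cons]

theorem pt_lpos_none (pos : ι → ℝ → Fin (k + 1) → ℝ) (t : ℝ) :
    pt (lpos pos) none t = Fin.snoc (0 : Fin (k + 2) → ℝ) (1 : ℝ) := by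
  unfold pt lpos lift
  have h0 : (Fin.snoc (0 : Fin (k + 1) → ℝ) (1 : ℝ) : Fin (k + 2) → ℝ) 0 = 0 := by
    have : (0 : Fin (k + 2)) = Fin.castSucc 0 := rfl
    rw [this, Fin.snoc_castSucc]; rfl
  simp only
  rw [h0, mul_zero, Fin.cons_snoc_eq_snoc_cons]
  congr 1
  ext i
  refine Fin.cases ?_ (fun i => ?_) i <;> simp

theorem snoc_comb (a b : ℝ) (x y : Fin (k + 2) → ℝ) (u v : ℝ) :
    a • (Fin.snoc x u : Fin (k + 3) → ℝ) + b • (Fin.snoc y v : Fin (k + 3) → ℝ) =
      Fin.snoc (a • x + b • y) (a * u + b * v) := by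
  ext i
  refine Fin.lastCases ?_ (fun i => ?_) i <;> simp

theorem mem_sgm_some (pos : ι → ℝ → Fin (k + 1) → ℝ) (i : ι) (Y : Fin (k + 3) → ℝ) :
    Y ∈ sgm (lpos pos) (some i) ↔ ∃ X ∈ sgm pos i, Y = Fin.snoc X (0 : ℝ) := by
  unfold sgm
  rw [pt_lpos_some, pt_lpos_some]
  constructor
  · rintro ⟨a, b, ha, hb, hab, rfl⟩
    refine ⟨_, ⟨a, b, ha, hb, hab, rfl⟩, ?_⟩
    rw [snoc_comb]; simp
  · rintro ⟨X, ⟨a, b, ha, hb, hab, rfl⟩, rfl⟩
    refine ⟨a, b, ha, hb, hab, ?_⟩
    rw [snoc_comb]; simp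

theorem mem_sgm_none (pos : ι → ℝ → Fin (k + 1) → ℝ) (Y : Fin (k + 3) → ℝ) :
    Y ∈ sgm (lpos pos) none ↔ Y = Fin.snoc (0 : Fin (k + 2) → ℝ) (1 : ℝ) := by
  unfold sgm
  rw [pt_lpos_none, pt_lpos_none, segment_same]
  rfl

theorem snoc_inj {x y : Fin (k + 2) → ℝ} {u v : ℝ}
    (h : (Fin.snoc x u : Fin (k + 3) → ℝ) = Fin.snoc y v) : x = y ∧ u = v := by
  constructor
  · ext i
    have := congrFun h i.castSucc
    simpa using this
  · have := congrFun h (Fin.last _)
    simpa using this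

theorem dot_snoc (N : Fin (k + 3) → ℝ) (X : Fin (k + 2) → ℝ) (u : ℝ) :
    N ⬝ᵥ (Fin.snoc X u : Fin (k + 3) → ℝ) = (Fin.init N) ⬝ᵥ X + N (Fin.last _) * u := by
  unfold dotProduct
  rw [Fin.sum_univ_castSucc]
  simp [Fin.init]

/-- The lifted example. -/
noncomputable def Ex.lift {h : ℕ} (e : Ex k h) : Ex (k + 1) h where
  ι := Option e.ι
  fin := by haveI := e.fin; infer_instance
  pos := lpos e.pos
  ne := ⟨none⟩
  inj := by
    intro a b hab
    rcases a with _ | a <;> rcases b with _ | b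
    · rfl
    · exfalso
      have := congrFun hab (Fin.last _)
      simp [lpos, Hel.lift] at this
    · exfalso
      have := congrFun hab (Fin.last _)
      simp [lpos, Hel.lift] at this
    · congr 1
      apply e.inj
      simp only
      ext i
      have := congrFun hab i.castSucc
      simpa [lpos, Hel.lift] using this
  seg := by
    intro o t ht0 ht1
    rcases o with _ | i
    · rw [mem_sgm_none, pt_lpos_none]
    · rw [mem_sgm_some, pt_lpos_some]
      exact ⟨_, e.seg i t ht0 ht1, rfl⟩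
  plane := by
    intro N c hN Y hY hc
    have hn := (mem_sgm_none e.pos _).1 (hY none)
    have h1 : N (Fin.last _) = c := by
      have := hc none
      rw [hn, dot_snoc] at this
      simpa using this
    have h2 : ∀ i, ∃ X ∈ sgm e.pos i, Y (some i) = Fin.snoc X (0 : ℝ) := fun i =>
      (mem_sgm_some e.pos i _).1 (hY (some i))
    choose X hX hYX using h2
    have h3 : ∀ i, (Fin.init N) ⬝ᵥ X i = c := by
      intro i
      have := hc (some i)
      rw [hYX, dot_snoc, mul_zero, add_zero] at this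
      exact this
    have h4 : (Fin.init N : Fin (k + 2) → ℝ) ≠ 0 := by
      intro h0
      obtain ⟨i⟩ := e.ne
      have h5 := h3 i
      rw [h0, zero_dotProduct] at h5
      apply hN
      ext l
      refine Fin.lastCases ?_ (fun l => ?_) l
      · rw [h1, ← h5]; rfl
      · exact congrFun h0 l
    obtain ⟨t, ht0, ht1, ht⟩ := e.plane (Fin.init N) c h4 X hX h3
    refine ⟨t, ht0, ht1, ?_⟩
    intro o
    rcases o with _ | i
    · rw [hn, pt_lpos_none]
    · rw [hYX, pt_lpos_some, ht]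
  disj := by
    intro a b hab
    rw [Set.disjoint_left]
    intro Y ha hb
    rcases a with _ | a <;> rcases b with _ | b
    · exact hab rfl
    · rw [mem_sgm_none] at ha
      rw [mem_sgm_some] at hb
      obtain ⟨X, -, hX⟩ := hb
      rw [ha] at hX
      exact absurd (snoc_inj hX).2 one_ne_zero
    · rw [mem_sgm_none] at hb
      rw [mem_sgm_some] at ha
      obtain ⟨X, -, hX⟩ := ha
      rw [hb] at hX
      exact absurd (snoc_inj hX).2 one_ne_zero
    · rw [mem_sgm_some] at ha hb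
      obtain ⟨X, hX, rfl⟩ := ha
      obtain ⟨X', hX', h⟩ := hb
      have := (snoc_inj h).1
      subst this
      exact Set.disjoint_left.1 (e.disj a b (fun h => hab (by rw [h]))) hX hX'
  few := by
    classical
    intro B hB
    have hcard : (B.eraseNone).card ≤ h := le_trans (Finset.card_eraseNone_le B) hB
    obtain ⟨t, ht0, ht1, ht⟩ := e.few (B.eraseNone) hcard
    refine ⟨t, ht0, ht1, ?_⟩
    intro f hf
    apply ht.lift f
    intro i
    intro j hj
    rw [Finset.mem_coe, Finset.mem_eraseNone, ← hj]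
    exact hf i
  all := by
    intro t ht0 ht1 ε hag
    exact e.all t ht0 ht1 ε (Agree.of_lift hag)

/-- The example in all dimensions `k + 2 ≥ 3`. -/
noncomputable def exAll (h : ℕ) : (k : ℕ) → Ex (k + 1) h
  | 0 => exBase h
  | k + 1 => (exAll h k).lift

end lift

end Pool.Agent.V5helper14.Hel
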