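import Mathlib

/-!
# Order types of point configurations: permutation invariance and lifting
-/

namespace Pool.Agent.V5helper14.Hel

open Matrix

/-- The determinant with rows `(1, q (f 0)), ..., (1, q (f k))`. -/
noncomputable def orient {k : ℕ} {ι : Type*} (q : ι → Fin k → ℝ) (f : Fin (k + 1) → ι) : ℝ :=
  Matrix.det (Matrix.of fun i : Fin (k + 1) => (Fin.cons 1 (q (f i)) : Fin (k + 1) → ℝ))

theorem orient_comp {k : ℕ} {ι κ : Type*} (q : ι → Fin k → ℝ) (e : κ → ι) (f : Fin (k + 1) → κ) :
    orient (fun i => q (e i)) f = orient q (fun i => e (f i)) := rfl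

theorem orient_perm {k : ℕ} {ι : Type*} (q : ι → Fin k → ℝ) (f : Fin (k + 1) → ι)
    (s : Equiv.Perm (Fin (k + 1))) :
    orient q (f ∘ s) = ((Equiv.Perm.sign s : ℤ) : ℝ) * orient q f := by
  unfold orient
  have := Matrix.det_permute s
    (Matrix.of fun i : Fin (k + 1) => (Fin.cons 1 (q (f i)) : Fin (k + 1) → ℝ))
  rw [← this]
  rfl

theorem orient_eq_zero_of_eq {k : ℕ} {ι : Type*} (q : ι → Fin k → ℝ) (f : Fin (k + 1) → ι)
    {i j : Fin (k + 1)} (hij : i ≠ j) (h : f i = f j) : orient q f = 0 := by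
  unfold orient
  apply Matrix.det_zero_of_row_eq hij
  funext l
  simp [Matrix.of_apply, h]

/-- The signs of two configurations agree up to a common factor `ε` on all tuples from `B`. -/
def Agree {k : ℕ} {ι : Type*} (ε : SignType) (p q : ι → Fin k → ℝ) (B : Set ι) : Prop :=
  ∀ f : Fin (k + 1) → ι, (∀ i, f i ∈ B) →
    SignType.sign (orient p f) = ε * SignType.sign (orient q f)

theorem agree_of_strictMono {k : ℕ} {ι : Type*} [LinearOrder ι] (ε : SignType)
    (p q : ι → Fin k → ℝ) (B : Set ι)
    (h : ∀ f : Fin (k + 1) → ι, StrictMono f → (∀ i, f i ∈ B) →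
      SignType.sign (orient p f) = ε * SignType.sign (orient q f)) : Agree ε p q B := by
  intro f hf
  by_cases hinj : Function.Injective f
  · have hmono : StrictMono (f ∘ Tuple.sort f) :=
      (Tuple.monotone_sort f).strictMono_of_injective
        (hinj.comp (Tuple.sort f).injective)
    have h1 := h (f ∘ Tuple.sort f) hmono (fun i => hf _)
    rw [orient_perm, orient_perm, sign_mul, sign_mul] at h1
    rcases Int.units_eq_one_or (Equiv.Perm.sign (Tuple.sort f)) with h2 | h2
    · rw [h2] at h1
      simpa using h1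
    · rw [h2] at h1
      simp only [Units.val_neg, Units.val_one, Int.cast_neg, Int.cast_one] at h1
      rw [show SignType.sign (-1 : ℝ) = -1 by simp] at h1
      simpa using h1
  · rw [Function.Injective] at hinj
    push Not at hinj
    obtain ⟨i, j, hij, hne⟩ := hinj
    rw [orient_eq_zero_of_eq p f hne hij, orient_eq_zero_of_eq q f hne hij]
    simp

/-- Lifting a configuration by one dimension: the old points get last coordinate `0`, the new
point is the last unit vector. -/
def lift {k : ℕ} {ι : Type*} (q : ι → Fin k → ℝ) : Option ι → Fin (k + 1) → ℝ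
  | none => Fin.snoc (0 : Fin k → ℝ) (1 : ℝ)
  | some i => Fin.snoc (q i) (0 : ℝ)

theorem orient_lift_snoc {k : ℕ} {ι : Type*} (q : ι → Fin k → ℝ) (g : Fin (k + 1) → ι) (r : Fin (k + 2))
    (f : Fin (k + 2) → Option ι) (hr : f r = none) (hg : ∀ i, f (r.succAbove i) = some (g i)) :
    orient (lift q) f = (-1) ^ ((r : ℕ) + (k + 1)) * orient q g := by
  unfold orient
  rw [Matrix.det_succ_column _ (Fin.last (k + 1))]
  rw [Finset.sum_eq_single r]
  · have h1 : (Matrix.of fun i : Fin (k + 2) => (Fin.cons 1 (lift q (f i)) : Fin (k + 2) → ℝ)) r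
        (Fin.last (k + 1)) = 1 := by
      rw [Matrix.of_apply, hr, ← Fin.succ_last, Fin.cons_succ]
      simp [lift]
    rw [h1]
    congr 1
    · simp
    · congr 1
      ext i l
      rw [Matrix.submatrix_apply, Matrix.of_apply, Matrix.of_apply, hg i]
      rw [Fin.succAbove_last]
      refine Fin.cases ?_ (fun l => ?_) l
      · simp
      · rw [← Fin.succ_castSucc, Fin.cons_succ, Fin.cons_succ]
        simp [lift]
  · intro i _ hi
    obtain ⟨i', rfl⟩ := Fin.exists_succAbove_eq hi
    have h1 : (Matrix.of fun i : Fin (k + 2) => (Fin.cons 1 (lift q (f i)) : Fin (k + 2) → ℝ))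
        (r.succAbove i') (Fin.last (k + 1)) = 0 := by
      rw [Matrix.of_apply, hg, ← Fin.succ_last, Fin.cons_succ]
      simp [lift]
    rw [h1]
    simp
  · intro h
    exact absurd (Finset.mem_univ r) h

theorem orient_lift_zero {k : ℕ} {ι : Type*} (q : ι → Fin k → ℝ) (f : Fin (k + 2) → Option ι)
    (hf : ∀ i, f i ≠ none) : orient (lift q) f = 0 := by
  unfold orient
  apply Matrix.det_eq_zero_of_column_eq_zero (Fin.last (k + 1))
  intro i
  obtain ⟨u, hu⟩ := Option.ne_none_iff_exists'.mp (hf i)
  rw [Matrix.of_apply, hu, ← Fin.succ_last, Fin.cons_succ]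
  simp [lift]

theorem Agree.lift {k : ℕ} {ι : Type*} {ε : SignType} {p q : ι → Fin k → ℝ} {B : Set ι}
    (h : Agree ε p q B) : Agree ε (Hel.lift p) (Hel.lift q) {o | ∀ i, o = some i → i ∈ B} := by
  intro f hf
  by_cases h0 : ∀ i, f i ≠ none
  · rw [orient_lift_zero p f h0, orient_lift_zero q f h0]; simp
  · push Not at h0
    obtain ⟨r, hr⟩ := h0
    by_cases h1 : ∀ i, f (r.succAbove i) ≠ none
    · have h2 : ∀ i, ∃ u, f (r.succAbove i) = some u := fun i =>
        Option.ne_none_iff_exists'.mp (h1 i)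
      choose g hg using h2
      rw [orient_lift_snoc p g r f hr hg, orient_lift_snoc q g r f hr hg, sign_mul, sign_mul,
        h g (fun i => hf _ _ (hg i))]
      rw [← mul_assoc, ← mul_assoc, mul_comm ε]
    · push Not at h1
      obtain ⟨i, hi⟩ := h1
      have hne : r ≠ r.succAbove i := (Fin.succAbove_ne r i).symm
      rw [orient_eq_zero_of_eq _ f hne (hr.trans hi.symm),
        orient_eq_zero_of_eq _ f hne (hr.trans hi.symm)]
      simp

theorem Agree.of_lift {k : ℕ} {ι : Type*} {ε : SignType} {p q : ι → Fin k → ℝ}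
    (h : Agree ε (Hel.lift p) (Hel.lift q) Set.univ) : Agree ε p q Set.univ := by
  intro g _
  let f : Fin (k + 2) → Option ι := Fin.snoc (fun i => some (g i)) none
  have hr : f (Fin.last (k + 1)) = none := by simp [f]
  have hg : ∀ i, f ((Fin.last (k + 1)).succAbove i) = some (g i) := by
    intro i
    rw [Fin.succAbove_last]
    simp [f]
  have h1 := h f (fun _ => Set.mem_univ _)
  rw [orient_lift_snoc p g _ f hr hg, orient_lift_snoc q g _ f hr hg] at h1
  have h2 : ((-1 : ℝ) ^ (((Fin.last (k + 1) : Fin (k + 2)) : ℕ) + (k + 1))) = 1 := by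
    rw [Fin.val_last]
    exact Even.neg_one_pow ⟨k + 1, rfl⟩
  rw [h2, one_mul, one_mul] at h1
  exact h1

end Pool.Agent.V5helper14.Hel
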